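import Mathlib
import Pool.Agent.Helper50_CIG.Sub

set_option autoImplicit false

open scoped Pointwise

namespace Pool.Agent.Results.MP_c4a8aa_al.ContractingGroups

/-- The group `P` contains two infinite subgroups which commute elementwise. -/
def CommutingInfinite (P : Type) [Group P] : Prop :=
  ∃ A B : Subgroup P, (A : Set P).Infinite ∧ (B : Set P).Infinite ∧ ∀ a ∈ A, ∀ b ∈ B, a * b = b * a

/-- The growth of the subgroup generated by the finite set `S` is not bounded by a polynomial. -/
def NotPolynomial {G : Type} [Group G] [DecidableEq G] (S : Finset G) : Prop :=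
  ∀ d : ℕ, ∀ C : ℝ, ∃ n : ℕ, C * ((n : ℝ) + 1) ^ d < ((((S ∪ S⁻¹ ∪ {1}) ^ n).card : ℕ) : ℝ)

/-- `IsSec sec h n g`: the element `h` of the group `G m` is an iterated section of `g : G n`. -/
inductive IsSec {G : ℕ → Type} {X : ℕ → Type} (sec : ∀ n, G n → X n → G (n + 1)) {m : ℕ}
    (h : G m) : (n : ℕ) → G n → Prop
  | refl : IsSec sec h m h
  | step (n : ℕ) (g : G n) (x : X n) : IsSec sec h (n + 1) (sec n g x) → IsSec sec h n g

/-- **Groups which act on rooted trees of bounded valency in a contracting way.** Let `G 0, G 1, ...`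
be groups, `G n` acting on a finite set `X n` with at most `d` elements, with sections in
`G (n + 1)`, i.e. homomorphisms `G n → G (n + 1) ≀ Sym (X n)`, with finite kernels. Let
`A n ⊆ G n` be sets with at most `q` elements, `1 ∈ A 0`, such that the sections at depth `K` of
the products of two elements of `A n` lie in `A (n + K)`. Let `S` be a finite set of elements of
the group `G 0` which, together with their inverses, are products of elements of `A 0`, such that
the growth of the group generated by `S` is not polynomial. Then this group contains two infinite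
subgroups which commute elementwise. -/
theorem result :
    ∀ (G : ℕ → Type) [∀ n, Group (G n)] [DecidableEq (G 0)] (X : ℕ → Type) [∀ n, Finite (X n)]
      [∀ n, MulAction (G n) (X n)] (sec : ∀ n, G n → X n → G (n + 1)) (A : ∀ n, Set (G n))
      (d q K : ℕ),
      (∀ n (g h : G n) (x : X n), sec n (g * h) x = sec n g (h • x) * sec n h x) →
      (∀ n, {g : G n | ∀ x, g • x = x ∧ sec n g x = 1}.Finite) →
      (∀ n, Nat.card (X n) ≤ d) → (∀ n, (A n).Finite ∧ (A n).ncard ≤ q) →
      1 ∈ A 0 →
      (∀ n, ∀ g ∈ A n * A n, ∀ h : G (n + K), IsSec sec h n g → h ∈ A (n + K)) →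
      ∀ S : Finset (G 0), ((S ∪ S⁻¹ : Finset (G 0)) : Set (G 0)) ⊆ Submonoid.closure (A 0) →
        NotPolynomial S → CommutingInfinite (Subgroup.closure (S : Set (G 0))) := by
  intro G _ _ X _ _ sec A d q K hsec hker hX hA h1 hcon S hgen hS
  obtain ⟨r, hr⟩ := Pool.Agent.H50.CIG.exists_pow (A 0) h1 (S ∪ S⁻¹ ∪ {1}) (by
    intro g hg
    rw [Finset.coe_union, Set.mem_union] at hg
    rcases hg with hg | hg
    · exact hgen hg
    · rw [Finset.coe_singleton, Set.mem_singleton_iff] at hg
      rw [hg]
      exact Submonoid.one_mem _)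
  have tr : ∀ {m : ℕ} {h : G m} {n : ℕ} {g : G n}, Pool.Agent.H50.CIG.IsSec sec h n g →
      IsSec sec h n g := by
    intro m h n g hs
    induction hs with
    | refl => exact IsSec.refl
    | step n g x _ ih => exact IsSec.step n g x ih
  obtain ⟨c, D, hfam⟩ := Pool.Agent.H50.CIG.fam_of_tower sec hsec d hX hker A q hA K
    (fun n g hg h hs => hcon n g hg h (tr hs)) h1 S r hr
  exact Pool.Agent.H50.CIG.ci_closure_of_fam S hS c D hfam

end Pool.Agent.Results.MP_c4a8aa_al.ContractingGroups
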