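import Pool.Agent.Helper67_CIP.HKS
import Pool.Agent.Helper67_CIP.HalfFull

/-!
Amenable subgroups of the topological full group of a minimal homeomorphism: if the growth is not
`exp (O ((log m)²))` and every invariant finitely additive probability on the space gives measure
smaller than `1/2` to the support of some element with infinitely many conjugates, then there are
two infinite commuting subgroups (or an infinite locally finite subgroup which is not locally
soluble).
-/

namespace Pool.Agent.Results.MP_c4a8aa_al.FullGroups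

open Filter Topology Pool.Agent.H22.CIG Pool.Agent.H67.CIP Pool.Agent.H50.CIG
open scoped Pointwise

theorem result {X : Type*} [TopologicalSpace X] [CompactSpace X] [T2Space X] [Infinite X]
    (T : X ≃ₜ X) (hT : ∀ x : X, Dense (Set.range fun i : ℤ => (T ^ i) x))
    {G : Type*} [Group G] [MulAction G X] [FaithfulSMul G X]
    (n : G → X → ℤ) (hn : ∀ g : G, Continuous (n g))
    (hact : ∀ (g : G) (x : X), g • x = (T ^ n g x) x)
    (Ω : ℕ → Finset G) (hΩ : ∀ k, (Ω k).Nonempty)
    (hF : ∀ h : G, Tendsto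
      (fun k => ({g : G | g ∈ Ω k ∧ h * g ∉ Ω k}.ncard : ℝ) / (Ω k).card) atTop (𝓝 0))
    (S : Finset G) (hgrow : ∀ K : ℝ, ∃ m : ℕ, 2 ≤ m ∧
      Real.exp (K * Real.log m ^ 2) ≤ (((S : Set G) ^ m).ncard : ℝ))
    (hsmall : ∀ ν : Set X → ℝ, (∀ A, 0 ≤ ν A) → ν Set.univ = 1 →
      (∀ A B, Disjoint A B → ν (A ∪ B) = ν A + ν B) →
      (∀ (g : G) (A : Set X), ν {x | g • x ∈ A} = ν A) →
      ∃ a : G, (Set.range fun h : G => h⁻¹ * a * h).Infinite ∧ ν {x | a • x ≠ x} < 1 / 2) :
    (∃ A B : Subgroup G, (A : Set G).Infinite ∧ (B : Set G).Infinite ∧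
      ∀ a ∈ A, ∀ b ∈ B, a * b = b * a) ∨
    ∃ L : Subgroup G, (L : Set G).Infinite ∧
      (∀ s : Finset G, (s : Set G) ⊆ L →
        ((Subgroup.closure (s : Set G) : Subgroup G) : Set G).Finite) ∧
      ∃ P : Subgroup G, P ≤ L ∧ (P : Set G).Finite ∧ ¬ Group.IsSolvable P := by
  classical
  let p : Piece T G := ⟨n, hn, hact, aperiodic T hT⟩
  rcases half_full p hT Ω hΩ (by
    intro h
    refine (hF h).congr fun k => ?_
    have h1 : {g : G | g ∈ Ω k ∧ h * g ∉ Ω k} =
        (((Ω k).filter fun g => h * g ∉ Ω k : Finset G) : Set G) := by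
      ext g
      simp
    rw [h1, Set.ncard_coe_finset, prop_eq]) (by
    intro m hm
    obtain ⟨a, ha, ha'⟩ := hsmall m.m m.nonneg m.univ m.add hm
    exact ⟨a, not_mem_fc_of_conj_infinite ha, ha'⟩) S (by
    intro K
    obtain ⟨m, hm, hle⟩ := hgrow K
    refine ⟨m, hm, ?_⟩
    rwa [← Finset.coe_pow, Set.ncard_coe_finset] at hle) with h | ⟨L, hL, hinf⟩
  · exact Or.inl h
  · by_cases hsol : ∀ P : Subgroup G, P ≤ L → (P : Set G).Finite → Group.IsSolvable P
    · exact Or.inl (CI.of_locsol L hL hinf hsol)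
    · right
      push Not at hsol
      exact ⟨L, hinf, fun s hs => hL s fun x hx => hs hx, hsol⟩

end Pool.Agent.Results.MP_c4a8aa_al.FullGroups
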